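import Pool.Agent.Q4.SPC.Stm
import Pool.Agent.Q4.GLC.Den

/-!
# SI: denominators for the symplectic group (project SPC of helper4)
-/

open IsDedekindDomain NumberField Matrix Q4.GLC

namespace Pool.Agent.Q211.SPC

open Q4.SPC

theorem si : Q4.SPC.SI := by
  intro F _ _ n g N hN
  classical
  choose d hd1 hd2 using fun a : Af F => ade_den a
  -- the common denominator
  let D : ℕ := (∏ i : Fin n ⊕ Fin n, ∏ j : Fin n ⊕ Fin n, d (g.1 i j)) *
    (∏ i : Fin n ⊕ Fin n, ∏ j : Fin n ⊕ Fin n, d (g⁻¹.1 i j))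
  have hD : 1 ≤ D := Nat.succ_le_of_lt (Nat.mul_pos
    (Finset.prod_pos fun i _ => Finset.prod_pos fun j _ => hd1 _)
    (Finset.prod_pos fun i _ => Finset.prod_pos fun j _ => hd1 _))
  have hmulle : ∀ (a b : ℕ) (x : Af F) (v : Pl F), Valued.v ((a : Af F) v * x v) ≤ 1 →
      a ∣ b → Valued.v ((b : Af F) v * x v) ≤ 1 := by
    rintro a b x v h ⟨e, rfl⟩
    have h1 : Valued.v (((a * e : ℕ) : Af F) v * x v) =
        Valued.v ((e : Af F) v) * Valued.v ((a : Af F) v * x v) := by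
      rw [natCast_app, natCast_app, natCast_app, Nat.cast_mul, ← map_mul]
      congr 1
      ring
    rw [h1]
    calc _ ≤ (1 : WithZero (Multiplicative ℤ)) * 1 := mul_le_mul' (val_nat_le_one _ v) h
      _ = 1 := one_mul 1
  have hg1 : ∀ i j v, Valued.v ((D : Af F) v * (g.1 i j) v) ≤ 1 := fun i j v =>
    hmulle _ _ _ _ (hd2 _ v) (Dvd.dvd.mul_right
      ((Finset.dvd_prod_of_mem (fun j => d (g.1 i j)) (Finset.mem_univ j)).trans
        (Finset.dvd_prod_of_mem (fun i => ∏ j : Fin n ⊕ Fin n, d (g.1 i j))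
          (Finset.mem_univ i))) _)
  have hg2 : ∀ i j v, Valued.v ((D : Af F) v * (g⁻¹.1 i j) v) ≤ 1 := fun i j v =>
    hmulle _ _ _ _ (hd2 _ v) (Dvd.dvd.mul_left
      ((Finset.dvd_prod_of_mem (fun j => d (g⁻¹.1 i j)) (Finset.mem_univ j)).trans
        (Finset.dvd_prod_of_mem (fun i => ∏ j : Fin n ⊕ Fin n, d (g⁻¹.1 i j))
          (Finset.mem_univ i))) _)
  have key : ∀ X : Matrix (Fin n ⊕ Fin n) (Fin n ⊕ Fin n) (Af F), DvdS (N * D ^ 2) X →
      DvdS N (g.1 * X * g⁻¹.1) := by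
    intro X hX i j
    rw [Matrix.mul_apply]
    refine DvdN.sum _ fun l _ => ?_
    rw [Matrix.mul_apply, Finset.sum_mul]
    refine DvdN.sum _ fun m _ => ?_
    intro v
    have h1 := hg1 i m v
    have h2 := hg2 l j v
    have h3 := hX m l v
    change Valued.v (g.1 i m v * X m l v * g⁻¹.1 l j v) ≤ _
    rw [map_mul, map_mul] at *
    have hDN : Valued.v (((N * D ^ 2 : ℕ) : Af F) v) =
        Valued.v ((N : Af F) v) * (Valued.v ((D : Af F) v) * Valued.v ((D : Af F) v)) := by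
      rw [natCast_app, natCast_app, natCast_app, Nat.cast_mul, Nat.cast_pow, map_mul, map_pow, sq]
    rw [hDN] at h3
    calc Valued.v (g.1 i m v) * Valued.v (X m l v) * Valued.v (g⁻¹.1 l j v)
        ≤ Valued.v (g.1 i m v) * (Valued.v ((N : Af F) v) * (Valued.v ((D : Af F) v) *
            Valued.v ((D : Af F) v))) * Valued.v (g⁻¹.1 l j v) := by gcongr
      _ = Valued.v ((N : Af F) v) * (Valued.v ((D : Af F) v) * Valued.v (g.1 i m v)) *
            (Valued.v ((D : Af F) v) * Valued.v (g⁻¹.1 l j v)) := by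
          ac_rfl
      _ ≤ Valued.v ((N : Af F) v) * 1 * 1 := by gcongr
      _ = _ := by rw [mul_one, mul_one]
  refine ⟨N * D ^ 2, Nat.mul_pos hN (Nat.pow_pos hD), Dvd.intro _ rfl, fun u hu => ?_⟩
  have h1 := mem_US.1 hu
  refine mem_US.2 ?_
  have e1 : (g * u * g⁻¹).1 - 1 = g.1 * (u.1 - 1) * g⁻¹.1 := by
    have h3 : g.1 * g⁻¹.1 = 1 := by
      have h4 := congrArg Subtype.val (mul_inv_cancel g)
      exact h4
    have h5 : (g * u * g⁻¹).1 = g.1 * u.1 * g⁻¹.1 := rfl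
    rw [h5, mul_sub, sub_mul, mul_one, h3]
  rw [e1]
  exact key _ h1

end Pool.Agent.Q211.SPC
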